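import Pool.Agent.Helper42.SG.GoalsB
import Pool.Agent.Helper29.BL.PS

/-!
# Packet SGB-EUP (MP_a41896_nt)
-/

set_option autoImplicit false

open MvPolynomial

namespace Pool.Agent.Helper59.SGB

open WeierstrassCurve Height
open Pool.Agent.Helper29.BL Pool.Agent.Helper92.Ru Pool.Agent.Helper42.SG

noncomputable section

lemma ps_sq {K : Type} [Field K] (W : Affine K) (P : W.Point) (hP : P ≠ 0) :
    ps P ^ 2 = Bf W (xc P) := by
  rcases P with _ | ⟨x, y, h⟩
  · exact absurd rfl hP
  · have he : W.Equation x y := h.1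
    rw [Affine.equation_iff] at he
    simp only [ps, Bf, xc, WeierstrassCurve.b₂, WeierstrassCurve.b₄, WeierstrassCurve.b₆]
    linear_combination 4 * he

variable {K : Type} [Field K]

lemma b2_le' (v : AbsoluteValue K ℝ) (W : Affine K) : v W.b₂ ≤ bet W v :=
  (le_max_left _ _).trans (le_max_right _ _)

lemma b4_le' (v : AbsoluteValue K ℝ) (W : Affine K) : v W.b₄ ≤ bet W v :=
  ((le_max_left _ _).trans (le_max_right _ _)).trans (le_max_right _ _)

lemma b6_le' (v : AbsoluteValue K ℝ) (W : Affine K) : v W.b₆ ≤ bet W v :=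
  (((le_max_left _ _).trans (le_max_right _ _)).trans (le_max_right _ _)).trans (le_max_right _ _)

lemma Bf_le (v : AbsoluteValue K ℝ) (W : Affine K) (x : K) :
    v (Bf W x) ≤ cst v 8 * bet W v * Mv v x ^ 3 := by
  have hβ := one_le_bet W v
  have hM := one_le_Mv v x
  have hx : v x ≤ Mv v x := le_max_right _ _
  have hx0 := v.nonneg x
  have hM0 : 0 ≤ Mv v x := by linarith
  have hβ0 : 0 ≤ bet W v := by linarith
  set M := Mv v x with hMd
  set β := bet W v with hβd
  have hM3 : 1 ≤ M ^ 3 := one_le_pow₀ hM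
  have h1 : v x ^ 3 ≤ β * M ^ 3 := by
    calc v x ^ 3 ≤ M ^ 3 := pow_le_pow_left₀ hx0 hx 3
      _ ≤ β * M ^ 3 := le_mul_of_one_le_left (by positivity) hβ
  have h2 : v (W.b₂ * x ^ 2) ≤ β * M ^ 3 := by
    rw [v.map_mul, v.map_pow]
    have : v x ^ 2 ≤ M ^ 3 := by
      calc v x ^ 2 ≤ M ^ 2 := pow_le_pow_left₀ hx0 hx 2
        _ ≤ M ^ 3 := pow_le_pow_right₀ hM (by norm_num)
    exact mul_le_mul (b2_le' v W) this (by positivity) hβ0
  have h3 : v (W.b₄ * x) ≤ β * M ^ 3 := by
    rw [v.map_mul]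
    have : v x ≤ M ^ 3 := hx.trans (le_self_pow₀ hM (by norm_num))
    exact mul_le_mul (b4_le' v W) this hx0 hβ0
  have h4 : v W.b₆ ≤ β * M ^ 3 := (b6_le' v W).trans (le_mul_of_one_le_right hβ0 hM3)
  have e1 : Bf W x = (((4 : ℕ) : K) * x ^ 3 + W.b₂ * x ^ 2) + (((2 : ℕ) : K) * (W.b₄ * x) + W.b₆) := by
    unfold Bf; push_cast; ring
  by_cases hv : IsNonarchimedean v
  · rw [cst_of_nonarch hv, one_mul, e1]
    have hn : ∀ (n : ℕ) (y : K), v ((n : K) * y) ≤ v y := by
      intro n y
      rw [v.map_mul]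
      have : v (n : K) ≤ 1 := hv.apply_natCast_le_one
      exact mul_le_of_le_one_left (v.nonneg _) this
    refine (hv _ _).trans (max_le ((hv _ _).trans (max_le ?_ h2)) ((hv _ _).trans (max_le ?_ h4)))
    · refine (hn 4 _).trans ?_
      rw [v.map_pow]; exact h1
    · exact (hn 2 _).trans h3
  · rw [cst_of_not_nonarch hv, e1]
    have hn : ∀ (n : ℕ), v (n : K) ≤ n := by
      intro n
      induction n with
      | zero => simp
      | succ n ih =>
        push_cast
        refine (v.add_le _ _).trans ?_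
        rw [v.map_one]; linarith
    have h5 : v (((4 : ℕ) : K) * x ^ 3) ≤ 4 * (β * M ^ 3) := by
      rw [v.map_mul, v.map_pow]
      exact mul_le_mul (by simpa using hn 4) h1 (by positivity) (by norm_num)
    have h6 : v (((2 : ℕ) : K) * (W.b₄ * x)) ≤ 2 * (β * M ^ 3) := by
      rw [v.map_mul]
      exact mul_le_mul (by simpa using hn 2) h3 (v.nonneg _) (by norm_num)
    have a1 := v.add_le (((4 : ℕ) : K) * x ^ 3 + W.b₂ * x ^ 2) (((2 : ℕ) : K) * (W.b₄ * x) + W.b₆)
    have a2 := v.add_le (((4 : ℕ) : K) * x ^ 3) (W.b₂ * x ^ 2)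
    have a3 := v.add_le (((2 : ℕ) : K) * (W.b₄ * x)) W.b₆
    linarith

theorem eup : EUP := by
  intro K _ _ W
  refine ⟨fun P hP => ps_sq W P hP, fun v => cst v 8 * bet W v, ⟨?_, ?_⟩, ?_⟩
  · intro v
    exact one_le_mul_of_one_le_of_one_le (one_le_cst v (by norm_num)) (one_le_bet W v)
  · refine ((FS_log_cst (K := K) 8).add (FS_log_bet W)).mono fun v _ hv => ?_
    rw [Real.log_mul (cst_pos v (by norm_num)).ne' (bet_pos W v).ne']
    exact hv
  · intro v P
    have hc := one_le_cst v (c := 8) (by norm_num)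
    have hβ := one_le_bet W v
    have hM := one_le_Mv v (xc P)
    have hB : 1 ≤ cst v 8 * bet W v := one_le_mul_of_one_le_of_one_le hc hβ
    by_cases hP : P = 0
    · subst hP
      have : ps (0 : W.Point) = 0 := rfl
      rw [this, v.map_zero]
      positivity
    · have h1 := ps_sq W P hP
      have h2 := Bf_le v W (xc P)
      have h3 : v (ps P) ^ 2 ≤ (cst v 8 * bet W v * Mv v (xc P) ^ 2) ^ 2 := by
        rw [← v.map_pow, h1]
        refine h2.trans ?_
        have h4 : cst v 8 * bet W v ≤ (cst v 8 * bet W v) ^ 2 := le_self_pow₀ hB (by norm_num)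
        have h5 : Mv v (xc P) ^ 3 ≤ Mv v (xc P) ^ 4 := pow_le_pow_right₀ hM (by norm_num)
        calc cst v 8 * bet W v * Mv v (xc P) ^ 3
            ≤ (cst v 8 * bet W v) ^ 2 * Mv v (xc P) ^ 4 :=
              mul_le_mul h4 h5 (by positivity) (by positivity)
          _ = _ := by ring
      exact (pow_le_pow_iff_left₀ (v.nonneg _) (by positivity) (by norm_num)).1 h3

end

end Pool.Agent.Helper59.SGB
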